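import Pool.Agent.AOI.Main

/-!
# Explicit hitting sets of polynomial size for read-once programs in any order

Over a field of characteristic zero: a nonzero polynomial `f` in `n` variables, of degree at most `d`
in each variable, all of whose flattenings have rank at most `w` (for every set `S` of variables `f`
is a sum of `w` products of a polynomial in the variables in `S` and a polynomial in the others), is
nonzero at a point of the explicit set `points n d w` of points with natural coordinates, of size at
most `(n+1)^7 (2w)^(400 d)`: polynomial in `n` and `w` for every constant individual degree `d`. These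
are the polynomials which have a read-once oblivious algebraic branching program of width at most `w`
in every order of the variables; for instance sums of `w` products of univariate polynomials.
-/

namespace Pool.Agent.Results.MP_e2be99_lc.AnyOrderROABP

open Pool.Agent.AOI

theorem result.{u} : ∀ (K : Type u) [Field K] [CharZero K] (n d w : ℕ), 1 ≤ d → 1 ≤ w →
    (points n d w).card ≤ (n + 1) ^ 7 * (2 * w) ^ (400 * d) ∧
    ∀ f : MvPolynomial (Fin n) K, f ≠ 0 → (∀ i, f.degreeOf i ≤ d) → Cuts w f →
      ∃ x ∈ points n d w, MvPolynomial.eval (fun i => ((x i : ℕ) : K)) f ≠ 0 :=
  fun _ _ _ n d w hd hw => ⟨card_points n d w hd hw, fun f hf hdeg hcut => hit hd f hf hdeg hcut⟩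

end Pool.Agent.Results.MP_e2be99_lc.AnyOrderROABP
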