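import Mathlib
import Pool.Agent.NCS.Final

/-!
Black-box identity testing for noncommutative rational formulas of bounded inversion height, and
the noncommutative rank of linear matrices of bounded defect: explicit sets of matrix tuples.
-/

namespace Pool.Agent.Kept52.NoncommutativeRationalOld

open Pool.Agent.NCP Pool.Agent.NCR Pool.Agent.NCS

universe u

/-- Let `K ⊆ L` be fields of characteristic zero and let `ζ j` be a primitive root of unity of order
`kS n S j` in `L`.
(1) A noncommutative rational formula over `K` of size at most `s` and level at most `h` (for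
instance of inversion height at most `h`) that is defined and not zero at some tuple of square
matrices over `K` is defined, with invertible value, at one of the `(B + 1) ^ (3 * (h + 1))`
explicit tuples `point L ζ n (2 * s) (h + 1) c` of matrices of size `kS n (2 * s) (h + 1)`, where
`B = 2 * (s + 1) ^ 2 * kS n (2 * s) (h + 1) ^ 3`.
(2) Let `A0, A i` be `s × s` matrices over `K`. If the noncommutative rank of `A0 + ∑ A i x_i` is at
least `rank A0 + h`, that is if for some tuple `Y` of `N × N` matrices over `K` the rank of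
`A0 ⊗ 1 + ∑ A i ⊗ Y i` is larger than `(rank A0 + h - 1) N`, then for one of the
`(B + 1) ^ (3 * h)` explicit tuples `X = point L ζ n (s + 1) h c` of matrices of size
`k = kS n (s + 1) h` the rank of `A0 ⊗ 1 + ∑ A i ⊗ X i` is at least `(rank A0 + h) k`, where
`B = s * k ^ 3`.
(3) Formulas of inversion height at most `h` have level at most `h`.
(4) The sizes of the matrices. -/
theorem result (K L : Type u) [Field K] [CharZero K] [Field L] [Algebra K L] (n s h : ℕ) :
    (∀ ζ : ℕ → L, (∀ j, 1 ≤ j → j ≤ h + 1 → IsPrimitiveRoot (ζ j) (kS n (2 * s) j)) →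
      ∀ φ : RExp K n, φ.size ≤ s → Lv h φ →
      (∃ (N : ℕ) (Y : Fin n → Matrix (Fin N) (Fin N) K), φ.Defined Y ∧ φ.eval Y ≠ 0) →
      ∃ c : Fin (3 * (h + 1)) → Fin (2 * (s + 1) ^ 2 * kS n (2 * s) (h + 1) ^ 3 + 1),
        φ.Defined (point L ζ n (2 * s) (h + 1) c) ∧
        IsUnit (φ.eval (point L ζ n (2 * s) (h + 1) c))) ∧
    (∀ ζ : ℕ → L, (∀ j, 1 ≤ j → j ≤ h → IsPrimitiveRoot (ζ j) (kS n (s + 1) j)) →
      ∀ (A0 : Matrix (Fin s) (Fin s) K) (A : Fin n → Matrix (Fin s) (Fin s) K),
      (∃ (N : ℕ) (Y : Fin n → Matrix (Fin N) (Fin N) K), (A0.rank + h) * N < rkAt A0 A Y + N) →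
      ∃ c : Fin (3 * h) → Fin (s * kS n (s + 1) h ^ 3 + 1),
        (A0.rank + h) * kS n (s + 1) h ≤ rkAt A0 A (point L ζ n (s + 1) h c)) ∧
    (∀ φ : RExp K n, ht φ ≤ h → Lv h φ) ∧
    (∀ S : ℕ, kS n S h = ((n * S ^ 4 * (S ^ 3 + 1) ^ 4 + 1) * (S ^ 3 + 1)) ^ h) :=
  ⟨fun ζ hζ φ hs hφ hY => formula_final ζ n s h hζ φ hs hφ hY,
    fun ζ hζ A0 A hrk => rank_final ζ n s h hζ A0 A hrk,
    fun φ => lv_of_ht h φ, fun S => kS_formula n S h⟩

end Pool.Agent.Kept52.NoncommutativeRationalOld
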