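import Mathlib
import Pool.Agent.BNR.MatF

/-!
Deterministic black-box rank of matrices of noncommutative rational formulas of any inversion
height over the free skew field: an explicit set of polynomially many tuples of matrices of
polynomial size.
-/

set_option autoImplicit false

namespace Pool.Agent.Kept52.RationalMatrices

open Pool.Agent.NCP Pool.Agent.BNR

universe u

/-- Let `K ⊆ F` and `K ⊆ L` be fields of characteristic zero, `ζ ∈ L` a primitive `N`-th root of
unity and `8 (n + 1) (s + 1) ^ 4 < N`. Let `Φ` be a `p × q` matrix of noncommutative rational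
formulas over `K` in `n` variables (sums, products and inversions, nested in any way) of total size
at most `s`.
Suppose that at some tuple `Y` of `d × d` matrices over `F` all entries of `Φ` are defined, that is
all inverted values are invertible, and that `r ≤ ⌈rank Φ(Y) / d⌉`. Then for some `t` in
`{1, …, B + 1}` and `a`, `b` in `{0, …, B}`, where `B = 2 (s + 1) ^ 2 N ^ 2`, all entries of `Φ`
are defined at the explicit tuple `X = XT L N ζ t a b` of `N × N` matrices over `L`, and
`rank Φ(X) ≥ r N`. -/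
theorem result {K F L : Type u} [Field K] [CharZero K] [Field F] [Algebra K F] [Field L]
    [Algebra K L] {n s N : ℕ} [NeZero N] (ζ : L) (hζ : IsPrimitiveRoot ζ N)
    (hN : 8 * (n + 1) * (s + 1) ^ 4 < N) {p q : ℕ} (Φ : Fin p → Fin q → RExp K n)
    (hs : ∑ i, ∑ j, (Φ i j).size ≤ s) {d : ℕ} (Y : Fin n → Matrix (Fin d) (Fin d) F)
    (hY : ∀ i j, (Φ i j).Defined Y) (r : ℕ) (hr : r * d < (valM Φ Y).rank + d) :
    ∃ t a b : ℕ, 1 ≤ t ∧ t ≤ 2 * (s + 1) ^ 2 * N ^ 2 + 1 ∧ a ≤ 2 * (s + 1) ^ 2 * N ^ 2 ∧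
      b ≤ 2 * (s + 1) ^ 2 * N ^ 2 ∧ (∀ i j, (Φ i j).Defined (XT L N ζ t a b)) ∧
      r * N ≤ (valM Φ (XT L N ζ t a b)).rank := by
  obtain ⟨t, a, b, h1, h2, h3, h4, h5, h6⟩ := mat_final ζ hζ Φ hs hN Y hY r hr
  rw [Nat.mul_assoc (2 * (s + 1) ^ 2), ← Nat.pow_two] at h2 h3 h4
  exact ⟨t, a, b, h1, h2, h3, h4, h5, h6⟩

end Pool.Agent.Kept52.RationalMatrices
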